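import Mathlib
import Pool.Agent.H.MP_887eca_lc.E

set_option autoImplicit false

namespace Pool.Agent.Results.MP_887eca_lc.Degree

open Finset Pool.Agent.H887e

/-- On every bipartite network whose user degrees lie in `[δ, 2^L δ)`, the minimax inelastic
regret is `√(C T) ∑ᵢ √(deg i)` up to a factor `7 √L`. -/
theorem result {I J : Type} [Fintype I] [Fintype J] [Nonempty J] (nb : I → Finset J)
    (N C T δ L : ℕ) (hδ : 1 ≤ δ) (hL : 1 ≤ L)
    (hd : ∀ i, δ ≤ (nb i).card ∧ (nb i).card < 2 ^ L * δ) (hC : 1 ≤ C)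
    (hN : 2 * C * Fintype.card J ≤ N) (hT : C * Fintype.card J ≤ T) :
    √(C * T / L) * (∑ i, √((nb i).card : ℝ)) / 7 ≤ minimax nb N C T ∧
      minimax nb N C T ≤ √(C * T) * ∑ i, √((nb i).card : ℝ) := by
  have hJ : 0 < Fintype.card J := Fintype.card_pos
  have h1 : 1 ≤ C * Fintype.card J := Nat.mul_pos hC hJ
  exact ⟨lower nb hδ hL hd hC hN hT, upper nb (fun i => hδ.trans (hd i).1) hC (h1.trans hT)
    fun _ => ⟨0, by nlinarith⟩⟩

end Pool.Agent.Results.MP_887eca_lc.Degree
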